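import Pool.Agent.Helper35.HL.Stm

/-!
# Pieces RK, ISO and TRE for MP_9e1b23_co
-/

set_option autoImplicit false

open SimpleGraph

namespace Pool.Agent.Helper35.HL

theorem t_RK : S_RK := by
  intro n T hT o
  refine ⟨⟨?_, ?_⟩, ?_⟩
  · intro u v h
    have := hT.dist_eq_dist_add_one_of_adj o h
    omega
  · intro v u u' h h' e e'
    obtain ⟨p, hp, hpl⟩ := hT.connected.exists_path_of_dist o u
    obtain ⟨q, hq, hql⟩ := hT.connected.exists_path_of_dist o u'
    have hp2 : (p.concat h.symm).IsPath :=
      (p.concat h.symm).isPath_of_length_eq_dist (by rw [Walk.length_concat]; omega)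
    have hq2 : (q.concat h'.symm).IsPath :=
      (q.concat h'.symm).isPath_of_length_eq_dist (by rw [Walk.length_concat]; omega)
    have h1 := (hT.isAcyclic.subsingleton_path o v).elim ⟨_, hp2⟩ ⟨_, hq2⟩
    have h3 : p.concat h.symm = q.concat h'.symm := congrArg Subtype.val h1
    have h4 : (p.concat h.symm).penultimate = (q.concat h'.symm).penultimate := by rw [h3]
    rwa [Walk.penultimate_concat, Walk.penultimate_concat] at h4
  · intro v hv
    obtain ⟨p, hp, hpl⟩ := hT.connected.exists_path_of_dist v o
    cases p with
    | nil => exact absurd rfl hv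
    | cons h q =>
      rename_i w
      refine ⟨w, h, ?_⟩
      have h1 := hT.dist_eq_dist_add_one_of_adj o h
      have h2 : T.dist w o ≤ q.length := dist_le q
      rw [Walk.length_cons] at hpl
      have e1 : T.dist v o = T.dist o v := dist_comm
      have e2 : T.dist w o = T.dist o w := dist_comm
      omega

theorem t_ISO : S_ISO := by
  intro n T hT hB
  -- a root with at most one neighbour
  have hroot : ∃ o : Fin n, ∀ a b, T.Adj o a → T.Adj o b → a = b := by
    classical
    rcases subsingleton_or_nontrivial (Fin n) with hs | hs
    · obtain ⟨o⟩ := hT.connected.nonempty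
      exact ⟨o, fun a b _ _ => Subsingleton.elim _ _⟩
    · obtain ⟨o, ho⟩ := hT.exists_vert_degree_one_of_nontrivial
      refine ⟨o, fun a b ha hb => ?_⟩
      rw [← card_neighborFinset_eq_degree, Finset.card_eq_one] at ho
      obtain ⟨x, hx⟩ := ho
      have h1 : a ∈ T.neighborFinset o := by rwa [mem_neighborFinset]
      have h2 : b ∈ T.neighborFinset o := by rwa [mem_neighborFinset]
      rw [hx, Finset.mem_singleton] at h1 h2
      rw [h1, h2]
  obtain ⟨o, ho⟩ := hroot
  obtain ⟨hrk, hlow⟩ := t_RK n T hT o
  have h0 : ∀ v, T.dist o v = 0 → v = o := by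
    intro v hv
    exact ((hT.connected.dist_eq_zero_iff).1 hv).symm
  have hinj : ∀ k v w, T.dist o v = k → T.dist o w = k → v = w := by
    intro k
    induction k with
    | zero => intro v w hv hw; rw [h0 v hv, h0 w hw]
    | succ k ih =>
      intro v w hv hw
      have hvo : v ≠ o := by
        rintro rfl
        rw [SimpleGraph.dist_self] at hv
        omega
      have hwo : w ≠ o := by
        rintro rfl
        rw [SimpleGraph.dist_self] at hw
        omega
      obtain ⟨v', hv', ev⟩ := hlow v hvo
      obtain ⟨w', hw', ew⟩ := hlow w hwo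
      have hvw : v' = w' := ih v' w' (by omega) (by omega)
      subst hvw
      by_contra hne
      by_cases hx : v' = o
      · subst hx
        exact hne (ho v w hv'.symm hw'.symm)
      · obtain ⟨x, hx', ex⟩ := hlow v' hx
        apply hB
        refine ⟨v', v, w, x, hne, ?_, ?_, hv'.symm, hw'.symm, hx'⟩
        · rintro rfl
          omega
        · rintro rfl
          omega
  have hdown : ∀ k v, T.dist o v = k → ∀ j, j ≤ k → ∃ u, T.dist o u = j := by
    intro k
    induction k with
    | zero =>
      intro v hv j hj
      exact ⟨v, by omega⟩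
    | succ k ih =>
      intro v hv j hj
      rcases Nat.lt_or_ge j (k + 1) with h | h
      · have hvo : v ≠ o := by
          rintro rfl
          rw [SimpleGraph.dist_self] at hv
          omega
        obtain ⟨v', hv', ev⟩ := hlow v hvo
        exact ih v' (by omega) j (by omega)
      · exact ⟨v, by omega⟩
  have hlt : ∀ v, T.dist o v < n := by
    intro v
    have h1 : ∀ j : Fin (T.dist o v + 1), ∃ u, T.dist o u = j.val :=
      fun j => hdown _ v rfl j.val (by omega)
    choose f hf using h1
    have hfi : Function.Injective f := by
      intro a b hab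
      have := hf a
      rw [hab, hf b] at this
      exact Fin.ext this.symm
    have := Fintype.card_le_of_injective f hfi
    simp only [Fintype.card_fin] at this
    omega
  have hi : Function.Injective (fun v => (⟨T.dist o v, hlt v⟩ : Fin n)) := by
    intro v w hvw
    exact hinj _ v w rfl (congrArg Fin.val hvw).symm
  refine ⟨Equiv.ofBijective _ (Finite.injective_iff_bijective.1 hi), fun u v => ?_⟩
  rw [pathGraph_adj]
  show T.Adj u v ↔ T.dist o u + 1 = T.dist o v ∨ T.dist o v + 1 = T.dist o u
  constructor
  · intro h
    have := hrk.adj u v h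
    omega
  · rintro (h | h)
    · have hvo : v ≠ o := by
        rintro rfl
        rw [SimpleGraph.dist_self] at h
        omega
      obtain ⟨v', hv', ev⟩ := hlow v hvo
      have : v' = u := hinj _ v' u rfl (by omega)
      rw [← this]
      exact hv'.symm
    · have huo : u ≠ o := by
        rintro rfl
        rw [SimpleGraph.dist_self] at h
        omega
      obtain ⟨u', hu', eu⟩ := hlow u huo
      have : u' = v := hinj _ u' v rfl (by omega)
      rw [← this]
      exact hu'

instance : DecidableRel T0.Adj := fun i j =>
  inferInstanceAs (Decidable (i ≠ j ∧ (par i = j ∨ par j = i)))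

theorem t_TRE : S_TRE := by
  show T0.IsTree
  rw [isTree_iff_connected_and_card]
  have hr : ∀ v : Fin 7, T0.Reachable v 0 := by
    have a1 : T0.Adj 1 0 := by decide
    have a2 : T0.Adj 2 0 := by decide
    have a3 : T0.Adj 3 2 := by decide
    have a4 : T0.Adj 4 0 := by decide
    have a5 : T0.Adj 5 4 := by decide
    have a6 : T0.Adj 6 5 := by decide
    intro v
    fin_cases v
    · exact Reachable.refl _
    · exact a1.reachable
    · exact a2.reachable
    · exact a3.reachable.trans a2.reachable
    · exact a4.reachable
    · exact a5.reachable.trans a4.reachable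
    · exact a6.reachable.trans (a5.reachable.trans a4.reachable)
  refine ⟨⟨fun u v => (hr u).trans (hr v).symm⟩, ?_⟩
  rw [Nat.card_eq_fintype_card, Nat.card_eq_fintype_card, ← edgeFinset_card]
  decide

end Pool.Agent.Helper35.HL
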